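import Pool.Agent.Run7.h715.Adv.Tail
import Pool.Agent.Results.MP_e8ee11_co.RandomTurns

/-!
# The Beck-Fiala problem with an adversary who owns half of the colours

Let `S_1, …, S_m` be subsets of `{1, …, n}` such that every element is in at most `t` of them, and
let `J` be a set of elements. The colours `χ_1, …, χ_n` are chosen in this order, those of the
elements of `J` by an adversary, who knows everything so far, and the others by the player, who does
not know the future. The set `J` is winnable for `R` if the player can force discrepancy at most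
`R`.

(1) The number of the sets `J` which are winnable for `R` is the number of the colourings of
discrepancy at most `R`.

(2) If the traces of the system on all subsets of the ground set have discrepancy at most `B`, then
for all `D > 0` at least `2^n exp (-15200 n / D²)` sets are winnable for `B + D √t`, and one of them
has at least `n / 2 - 88 n / D` elements.

(3) So this holds, for all systems of maximum degree at most `t`, with `B = t`, and with
`B = C (√t + (1 + log t)^{3/2} √(log (1 + min m n)))`, `C` an absolute constant.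

(4), (5) The Beck-Fiala conjecture holds if and only if there is a constant `C` such that for all
systems of maximum degree at most `t` and all `D ≥ C` at least `2^n exp (-C n / D²)` sets are
winnable for `D √t`; and if and only if there is a constant `C` such that for all systems of maximum
degree at most `t` and all `D ≥ C` some set with at least `n / 2 - C n / D` elements is winnable for
`D √t`.

(6) Both the number and the size are best possible up to the constants, for every `t`: for all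
`t ≥ 1` and `D ≥ 1` there are arbitrarily large systems of maximum degree at most `t` such that at
most `2^n exp (- n / (300000 D²))` sets are winnable for `D √t`, and all of them have at most
`n / 2 + n / (8704 D)` elements.
-/

set_option autoImplicit false

namespace Pool.Agent.Results.MP_e8ee11_co.AdversarialColours

open Finset Pool.Agent.R814.Game Pool.Agent.R378
open Pool.Agent.Results.MP_e8ee11_co.RandomTurns (f sys sys_degree sys_sum sys_abs)

/-- Every element is in at most `t` of the sets `S_1, …, S_m`. -/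
def DegreeLE {m n : ℕ} (S : Fin m → Finset (Fin n)) (t : ℕ) : Prop :=
  ∀ i, (Finset.univ.filter (fun j => i ∈ S j)).card ≤ t

/-- The colouring `χ` has discrepancy at most `R`. -/
def DiscLE {m n : ℕ} (S : Fin m → Finset (Fin n)) (R : ℝ) (χ : Fin n → ℤˣ) : Prop :=
  ∀ j, |∑ i ∈ S j, ((χ i : ℤ) : ℝ)| ≤ R

/-- The player, who chooses the colours of the elements outside `J`, has a strategy `σ` which forces
that the colouring has discrepancy at most `R`, whatever the colours of the elements of `J` are. The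
colour `σ j χ` depends only on the colours `χ_i`, `i < j`. -/
def Winnable {m n : ℕ} (S : Fin m → Finset (Fin n)) (R : ℝ) (J : Finset (Fin n)) : Prop :=
  ∃ σ : Fin n → (Fin n → ℤˣ) → ℤˣ,
    (∀ j χ χ', (∀ i, i < j → χ i = χ' i) → σ j χ = σ j χ') ∧
    ∀ χ : Fin n → ℤˣ, (∀ j, j ∉ J → χ j = σ j χ) → DiscLE S R χ

theorem part1 (m n : ℕ) (S : Fin m → Finset (Fin n)) (R : ℝ) :
    Nat.card {J : Finset (Fin n) // Winnable S R J} = Nat.card {χ : Fin n → ℤˣ // DiscLE S R χ} :=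
  card_wins (DiscLE S R)

theorem two_of_count {m n : ℕ} (S : Fin m → Finset (Fin n)) (R K s D : ℝ) (hs : 0 ≤ s)
    (hD : 0 < D) (hK : K < 2 * s ^ 2)
    (h : 2 ^ n * Real.exp (-(K * n / D ^ 2)) ≤ (Nat.card {χ : Fin n → ℤˣ // DiscLE S R χ} : ℝ)) :
    2 ^ n * Real.exp (-(K * n / D ^ 2)) ≤ (Nat.card {J : Finset (Fin n) // Winnable S R J} : ℝ) ∧
    ∃ J, Winnable S R J ∧ (n : ℝ) / 2 - s * n / D ≤ J.card := by
  rw [← part1] at h
  refine ⟨h, ?_⟩
  have h1 := exists_large (Winnable S R) (K / D ^ 2) (s / D) (by positivity) (by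
      rw [div_pow, ← mul_div_assoc]
      exact div_lt_div_of_pos_right hK (by positivity)) (by
      refine le_trans (le_of_eq ?_) h
      congr 2
      ring)
  obtain ⟨J, hJ1, hJ2⟩ := h1
  refine ⟨J, hJ1, ?_⟩
  refine le_trans (le_of_eq ?_) hJ2
  ring

theorem part2 (m n t : ℕ) (S : Fin m → Finset (Fin n)) (B D : ℝ) (hS : DegreeLE S t)
    (hD : 0 < D)
    (hB : ∀ I : Finset (Fin n), ∃ χ : Fin n → ℤˣ, ∀ j, |∑ i ∈ S j ∩ I, ((χ i : ℤ) : ℝ)| ≤ B) :
    2 ^ n * Real.exp (-(15200 * n / D ^ 2)) ≤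
      (Nat.card {J : Finset (Fin n) // Winnable S (B + D * Real.sqrt t) J} : ℝ) ∧
    ∃ J, Winnable S (B + D * Real.sqrt t) J ∧ (n : ℝ) / 2 - 88 * n / D ≤ J.card :=
  two_of_count S _ _ _ _ (by norm_num) hD (by norm_num)
    (ColouringsCount.transfer m n t S B D hS hD hB)

theorem part3a (m n t : ℕ) (S : Fin m → Finset (Fin n)) (D : ℝ) (hS : DegreeLE S t)
    (hD : 0 < D) :
    2 ^ n * Real.exp (-(15200 * n / D ^ 2)) ≤
      (Nat.card {J : Finset (Fin n) // Winnable S (t + D * Real.sqrt t) J} : ℝ) ∧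
    ∃ J, Winnable S (t + D * Real.sqrt t) J ∧ (n : ℝ) / 2 - 88 * n / D ≤ J.card :=
  two_of_count S _ _ _ _ (by norm_num) hD (by norm_num)
    (ColouringsCount.part2 m n t S D hS hD)

theorem part3b : ∃ C : ℝ, ∀ (m n t : ℕ) (S : Fin m → Finset (Fin n)) (D : ℝ), 1 ≤ t →
    DegreeLE S t → 0 < D →
    2 ^ n * Real.exp (-(15200 * n / D ^ 2)) ≤ (Nat.card {J : Finset (Fin n) //
      Winnable S (C * (Real.sqrt t + (1 + Real.log t) ^ (3 / 2 : ℝ) *
        Real.sqrt (Real.log (1 + (min m n : ℕ)))) + D * Real.sqrt t) J} : ℝ) ∧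
    ∃ J, Winnable S (C * (Real.sqrt t + (1 + Real.log t) ^ (3 / 2 : ℝ) *
        Real.sqrt (Real.log (1 + (min m n : ℕ)))) + D * Real.sqrt t) J ∧
      (n : ℝ) / 2 - 88 * n / D ≤ J.card := by
  obtain ⟨C, hC⟩ := ColouringsCount.part2'
  exact ⟨C, fun m n t S D ht hS hD => two_of_count S _ _ _ _ (by norm_num) hD (by norm_num)
    (hC m n t S D ht hS hD)⟩

theorem part4 :
    (∃ C : ℝ, 0 < C ∧ ∀ (n m t : ℕ) (S : Fin m → Finset (Fin n)), DegreeLE S t →
      ∃ χ : Fin n → ℤ, (∀ i, χ i = 1 ∨ χ i = -1) ∧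
        ∀ j, ((|∑ i ∈ S j, χ i| : ℤ) : ℝ) ≤ C * Real.sqrt t) ↔
    ∃ C : ℝ, 0 < C ∧ ∀ (n m t : ℕ) (S : Fin m → Finset (Fin n)), DegreeLE S t →
      ∀ D : ℝ, C ≤ D → 2 ^ n * Real.exp (-(C * n / D ^ 2)) ≤
        (Nat.card {J : Finset (Fin n) // Winnable S (D * Real.sqrt t) J} : ℝ) := by
  simp_rw [part1]
  exact ColouringsCount.part3

theorem part5 :
    (∃ C : ℝ, 0 < C ∧ ∀ (n m t : ℕ) (S : Fin m → Finset (Fin n)), DegreeLE S t →
      ∃ χ : Fin n → ℤ, (∀ i, χ i = 1 ∨ χ i = -1) ∧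
        ∀ j, ((|∑ i ∈ S j, χ i| : ℤ) : ℝ) ≤ C * Real.sqrt t) ↔
    ∃ C : ℝ, 0 < C ∧ ∀ (n m t : ℕ) (S : Fin m → Finset (Fin n)), DegreeLE S t →
      ∀ D : ℝ, C ≤ D → ∃ J, Winnable S (D * Real.sqrt t) J ∧
        (n : ℝ) / 2 - C * n / D ≤ J.card := by
  constructor
  · intro hK
    obtain ⟨C, hC, h⟩ := ColouringsCount.part3.1 hK
    refine ⟨C + 1, by positivity, fun n m t S hS D hD => ?_⟩
    have hD0 : 0 < D := by linarith
    exact (two_of_count S (D * Real.sqrt t) C (C + 1) D (by positivity) hD0 (by nlinarith)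
      (h n m t S hS D (by linarith))).2
  · rintro ⟨C, hC, h⟩
    refine ⟨C, hC, fun n m t S hS => ?_⟩
    obtain ⟨J, hJ, _⟩ := h n m t S hS C le_rfl
    obtain ⟨χ, hχ⟩ := Wins.exists_sign (F := DiscLE S (C * Real.sqrt t)) (J := J) hJ
    refine ⟨fun i => (χ i : ℤ), fun i => ?_, fun j => ?_⟩
    · rcases Int.units_eq_one_or (χ i) with h | h <;> simp [h]
    · have := hχ j
      push_cast
      exact this

theorem part6 (t : ℕ) (ht : 1 ≤ t) (D : ℝ) (hD : 1 ≤ D) (N : ℕ) :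
    ∃ (n m : ℕ) (S : Fin m → Finset (Fin n)), N ≤ n ∧ DegreeLE S t ∧
      (Nat.card {J : Finset (Fin n) // Winnable S (D * Real.sqrt t) J} : ℝ) ≤
        2 ^ n * Real.exp (-(n / (300000 * D ^ 2))) ∧
      ∀ J, Winnable S (D * Real.sqrt t) J → (J.card : ℝ) ≤ n / 2 + n / (8704 * D) := by
  classical
  set k := Nat.log 2 t with hk
  have hk1 : 2 ^ k ≤ t := Nat.pow_log_le_self 2 (by omega)
  have hk2 : t < 2 ^ (k + 1) := Nat.lt_pow_succ_log_self (by norm_num) t
  set D' : ℝ := 17 / 4 * D with hD'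
  have hD0 : 0 < D := by linarith
  have hD0' : 0 < D' := by rw [hD']; linarith
  set m : ℕ := ⌈1024 * D' ^ 2⌉₊ with hm
  have hm1 : 1024 * D' ^ 2 ≤ m := Nat.le_ceil _
  have hm2 : (m:ℝ) ≤ 18497 * D ^ 2 := by
    have h1 := Nat.ceil_lt_add_one (by positivity : (0:ℝ) ≤ 1024 * D' ^ 2)
    rw [← hm] at h1
    have h2 : 1024 * D' ^ 2 = 18496 * D ^ 2 := by rw [hD']; ring
    have h3 : 1 ≤ D ^ 2 := one_le_pow₀ hD
    linarith
  have hm0 : 0 < m := by
    have : (0:ℝ) < m := lt_of_lt_of_le (by positivity) hm1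
    exact_mod_cast this
  have hroot : 3 * (D * Real.sqrt t) * Real.sqrt (2 ^ k) ≤ 2 ^ k * D' := by
    have h1 : Real.sqrt t ≤ Real.sqrt 2 * Real.sqrt (2 ^ k) := by
      rw [← Real.sqrt_mul (by norm_num)]
      apply Real.sqrt_le_sqrt
      have : ((t:ℕ):ℝ) ≤ ((2 ^ (k + 1) : ℕ) : ℝ) := by exact_mod_cast hk2.le
      push_cast at this
      rw [pow_succ] at this
      linarith
    have h2 : Real.sqrt 2 ≤ 17 / 12 := by
      rw [Real.sqrt_le_left (by norm_num)]
      norm_num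
    have h3 : Real.sqrt (2 ^ k) * Real.sqrt (2 ^ k) = 2 ^ k := Real.mul_self_sqrt (by positivity)
    have h4 : Real.sqrt t ≤ 17 / 12 * Real.sqrt (2 ^ k) :=
      h1.trans (mul_le_mul_of_nonneg_right h2 (by positivity))
    calc 3 * (D * Real.sqrt t) * Real.sqrt (2 ^ k)
        = 3 * D * Real.sqrt (2 ^ k) * Real.sqrt t := by ring
      _ ≤ 3 * D * Real.sqrt (2 ^ k) * (17 / 12 * Real.sqrt (2 ^ k)) :=
          mul_le_mul_of_nonneg_left h4 (by positivity)
      _ = 17 / 4 * D * (Real.sqrt (2 ^ k) * Real.sqrt (2 ^ k)) := by ring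
      _ = 2 ^ k * D' := by rw [h3, hD']; ring
  have habs : ∀ χ, DiscLE (sys N k m) (D * Real.sqrt t) χ →
      ∑ b, |Khin.S (Rep.B _ m b) χ| ≤ ((N * 2 ^ k : ℕ) : ℝ) * D' := by
    intro χ hχ
    refine (sys_abs N k m χ _ hχ).trans ?_
    push_cast
    rw [mul_assoc (N:ℝ) (2 ^ k) D']
    exact mul_le_mul_of_nonneg_left hroot (Nat.cast_nonneg N)
  refine ⟨N * 2 ^ k * m, N * 2 ^ k, sys N k m, ?_, fun i => (sys_degree N k m i).trans hk1,
    ?_, ?_⟩
  · rw [mul_assoc]
    exact Nat.le_mul_of_pos_right N (by positivity)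
  · rw [part1]
    have h1 : (Nat.card {χ : Fin (N * 2 ^ k * m) → ℤˣ //
        DiscLE (sys N k m) (D * Real.sqrt t) χ} : ℝ) ≤
        (Nat.card {χ : Fin (N * 2 ^ k * m) → ℤˣ //
          ∑ b, |Khin.S (Rep.B (N * 2 ^ k) m b) χ| ≤ ((N * 2 ^ k : ℕ) : ℝ) * D'} : ℝ) := by
      have : Nat.card {χ : Fin (N * 2 ^ k * m) → ℤˣ //
          DiscLE (sys N k m) (D * Real.sqrt t) χ} ≤
          Nat.card {χ : Fin (N * 2 ^ k * m) → ℤˣ //
            ∑ b, |Khin.S (Rep.B (N * 2 ^ k) m b) χ| ≤ ((N * 2 ^ k : ℕ) : ℝ) * D'} :=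
        Nat.card_le_card_of_injective (fun χ => ⟨χ.1, habs χ.1 χ.2⟩) fun a b h => by
          have h' := Subtype.ext_iff.1 h
          exact Subtype.ext h'
      exact_mod_cast this
    refine h1.trans ((Run7.h715.Adv.few_avg (N * 2 ^ k) m D' hD0' hm1).trans ?_)
    apply mul_le_mul_of_nonneg_left _ (by positivity)
    apply Real.exp_le_exp.2
    apply neg_le_neg
    rw [div_le_div_iff₀ (by positivity) (by norm_num)]
    push_cast
    have h2 : (N:ℝ) * 2 ^ k * m ≤ N * 2 ^ k * (18497 * D ^ 2) :=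
      mul_le_mul_of_nonneg_left hm2 (by positivity)
    have h3 : 0 ≤ (N:ℝ) * 2 ^ k * D ^ 2 := by positivity
    nlinarith
  · intro J hJ
    have h1 := RepAvg.wins_excess (F := DiscLE (sys N k m) (D * Real.sqrt t)) hJ habs
    have h2 : ∑ b : Fin (N * 2 ^ k), (2 * ((J ∩ Rep.B (N * 2 ^ k) m b).card : ℝ) - m) ≤
        ((N * 2 ^ k : ℕ) : ℝ) * D' :=
      (Finset.sum_le_sum fun b _ => le_max_right _ _).trans h1
    rw [Finset.sum_sub_distrib, ← Finset.mul_sum, Finset.sum_const, Finset.card_univ,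
      Fintype.card_fin, nsmul_eq_mul] at h2
    have h3 := Rep.card_blocks (N * 2 ^ k) m J
    have h4 : (J.card : ℝ) = ∑ b, ((J ∩ Rep.B (N * 2 ^ k) m b).card : ℝ) := by
      rw [h3]; push_cast; rfl
    rw [← h4] at h2
    have h5 : ((N * 2 ^ k : ℕ) : ℝ) * (D' / 2) ≤ ((N * 2 ^ k * m : ℕ) : ℝ) / (8704 * D) := by
      rw [le_div_iff₀ (by positivity)]
      push_cast
      have h6 : (N:ℝ) * 2 ^ k * (1024 * D' ^ 2) ≤ N * 2 ^ k * m :=
        mul_le_mul_of_nonneg_left hm1 (by positivity)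
      calc (N:ℝ) * 2 ^ k * (D' / 2) * (8704 * D) = N * 2 ^ k * (1024 * D' ^ 2) := by
            rw [hD']; ring
        _ ≤ N * 2 ^ k * m := h6
    push_cast at h2 h5 ⊢
    linarith

/-- **The Beck-Fiala problem with an adversary who owns half of the colours**: see the header. -/
theorem result :
    -- (1) the number of winnable sets
    (∀ (m n : ℕ) (S : Fin m → Finset (Fin n)) (R : ℝ),
      Nat.card {J : Finset (Fin n) // Winnable S R J} =
        Nat.card {χ : Fin n → ℤˣ // DiscLE S R χ}) ∧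
    -- (2) transfer
    (∀ (m n t : ℕ) (S : Fin m → Finset (Fin n)) (B D : ℝ), DegreeLE S t → 0 < D →
      (∀ I : Finset (Fin n), ∃ χ : Fin n → ℤˣ, ∀ j, |∑ i ∈ S j ∩ I, ((χ i : ℤ) : ℝ)| ≤ B) →
      2 ^ n * Real.exp (-(15200 * n / D ^ 2)) ≤
        (Nat.card {J : Finset (Fin n) // Winnable S (B + D * Real.sqrt t) J} : ℝ) ∧
      ∃ J, Winnable S (B + D * Real.sqrt t) J ∧ (n : ℝ) / 2 - 88 * n / D ≤ J.card) ∧
    -- (3) the unconditional bounds
    (∀ (m n t : ℕ) (S : Fin m → Finset (Fin n)) (D : ℝ), DegreeLE S t → 0 < D →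
      2 ^ n * Real.exp (-(15200 * n / D ^ 2)) ≤
        (Nat.card {J : Finset (Fin n) // Winnable S (t + D * Real.sqrt t) J} : ℝ) ∧
      ∃ J, Winnable S (t + D * Real.sqrt t) J ∧ (n : ℝ) / 2 - 88 * n / D ≤ J.card) ∧
    (∃ C : ℝ, ∀ (m n t : ℕ) (S : Fin m → Finset (Fin n)) (D : ℝ), 1 ≤ t →
      DegreeLE S t → 0 < D →
      2 ^ n * Real.exp (-(15200 * n / D ^ 2)) ≤ (Nat.card {J : Finset (Fin n) //
        Winnable S (C * (Real.sqrt t + (1 + Real.log t) ^ (3 / 2 : ℝ) *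
          Real.sqrt (Real.log (1 + (min m n : ℕ)))) + D * Real.sqrt t) J} : ℝ) ∧
      ∃ J, Winnable S (C * (Real.sqrt t + (1 + Real.log t) ^ (3 / 2 : ℝ) *
          Real.sqrt (Real.log (1 + (min m n : ℕ)))) + D * Real.sqrt t) J ∧
        (n : ℝ) / 2 - 88 * n / D ≤ J.card) ∧
    -- (4) the Beck-Fiala conjecture and the number of winnable sets
    ((∃ C : ℝ, 0 < C ∧ ∀ (n m t : ℕ) (S : Fin m → Finset (Fin n)), DegreeLE S t →
        ∃ χ : Fin n → ℤ, (∀ i, χ i = 1 ∨ χ i = -1) ∧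
          ∀ j, ((|∑ i ∈ S j, χ i| : ℤ) : ℝ) ≤ C * Real.sqrt t) ↔
      ∃ C : ℝ, 0 < C ∧ ∀ (n m t : ℕ) (S : Fin m → Finset (Fin n)), DegreeLE S t →
        ∀ D : ℝ, C ≤ D → 2 ^ n * Real.exp (-(C * n / D ^ 2)) ≤
          (Nat.card {J : Finset (Fin n) // Winnable S (D * Real.sqrt t) J} : ℝ)) ∧
    -- (5) the Beck-Fiala conjecture and large winnable sets
    ((∃ C : ℝ, 0 < C ∧ ∀ (n m t : ℕ) (S : Fin m → Finset (Fin n)), DegreeLE S t →
        ∃ χ : Fin n → ℤ, (∀ i, χ i = 1 ∨ χ i = -1) ∧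
          ∀ j, ((|∑ i ∈ S j, χ i| : ℤ) : ℝ) ≤ C * Real.sqrt t) ↔
      ∃ C : ℝ, 0 < C ∧ ∀ (n m t : ℕ) (S : Fin m → Finset (Fin n)), DegreeLE S t →
        ∀ D : ℝ, C ≤ D → ∃ J, Winnable S (D * Real.sqrt t) J ∧
          (n : ℝ) / 2 - C * n / D ≤ J.card) ∧
    -- (6) sharpness
    (∀ t : ℕ, 1 ≤ t → ∀ D : ℝ, 1 ≤ D → ∀ N : ℕ, ∃ (n m : ℕ) (S : Fin m → Finset (Fin n)),
      N ≤ n ∧ DegreeLE S t ∧
      (Nat.card {J : Finset (Fin n) // Winnable S (D * Real.sqrt t) J} : ℝ) ≤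
        2 ^ n * Real.exp (-(n / (300000 * D ^ 2))) ∧
      ∀ J, Winnable S (D * Real.sqrt t) J → (J.card : ℝ) ≤ n / 2 + n / (8704 * D)) :=
  ⟨part1, part2, part3a, part3b, part4, part5, part6⟩

end Pool.Agent.Results.MP_e8ee11_co.AdversarialColours
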