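import Pool.Agent.Results.MP_e8ee11_co.FewLargeSingularValues
import Pool.Agent.H663R5.BF.Struct

/-!
# The Beck-Fiala problem for incidence relations of low complexity

There is an absolute constant `C` with the following properties. Let `S_1, …, S_m` be subsets of
`[n]` of maximum degree at most `t`.

1. Let `K ≥ 1`, and suppose that there are no `κ + 1` elements `u_i` and `κ + 1` sets `S_(s_j)` with
   more than `K √t` elements such that `u_i ∈ S_(s_j)` exactly if `i = j`. Then the discrepancy is
   at most `C (K √t + (1 + log t)^(3/2) √(log (2 + κ t)))`, which is at most `C K √t` if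
   `κ t ≤ exp (t / (1 + log t)^3)`. The numbers of elements and sets are arbitrary.
2. So the Beck-Fiala conjecture holds for all set systems whose incidence matrix (or any matrix
   with the same zeros) has, over some field, rank at most `exp (t / (1 + log t)^3) / t`.
3. Sets decided by equality queries: if a protocol with at most `c` questions, each asking whether the
   label of the element is equal to the label of the set, decides whether an element is in a set, then
   the discrepancy is at most `9 ^ c`, for all `t`; so it is at most `√t` if `81 ^ c ≤ t`. More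
   generally this holds for all real matrices whose entries are computed by such a protocol with
   outputs in `[-1, 1]`, and the discrepancy of a combination of `N` equality relations with
   coefficients `a_l` is at most `N ∑ |a_l|`.

Proofs. 1: a minimal set of elements which meets all long sets has at most `κ` elements, so there are
at most `κ t` long sets, and a theorem of the starting files (`FewLargeSingularValues`, going back to
Bansal and Jiang) can be applied to them. 3: by induction on the protocol the matrix is a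
combination of `3 ^ c` equality relations, and by the Hall type signing theorem of the starting
library there is a colouring with discrepancy at most `N` on all classes of `N` partitions.
-/

set_option autoImplicit false

namespace Pool.Agent.Results.MP_e8ee11_co.LowComplexityIncidences

open Finset

/-! ### Induced matchings -/

/-- There are no `κ + 1` elements and `κ + 1` sets with indices in `E` such that the `i`-th element is in
the `j`-th set exactly if `i = j`. -/
def NoMatching {m n : ℕ} (S : Fin m → Finset (Fin n)) (E : Set (Fin m)) (κ : ℕ) : Prop :=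
  ∀ (u : Fin (κ + 1) → Fin n) (s : Fin (κ + 1) → Fin m), (∀ j, s j ∈ E) →
    ¬ ∀ i j, u i ∈ S (s j) ↔ i = j

/-- few elements meet all sets -/
lemma exists_hitting {m n : ℕ} (S : Fin m → Finset (Fin n)) (E : Finset (Fin m)) (κ : ℕ)
    (hE : ∀ i ∈ E, (S i).Nonempty) (h : NoMatching S E κ) :
    ∃ Z : Finset (Fin n), Z.card ≤ κ ∧ ∀ i ∈ E, ∃ z ∈ Z, z ∈ S i := by
  classical
  have hne : ((univ : Finset (Finset (Fin n))).filter
      (fun Z => ∀ i ∈ E, ∃ z ∈ Z, z ∈ S i)).Nonempty := by
    refine ⟨univ, mem_filter.2 ⟨mem_univ _, fun i hi => ?_⟩⟩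
    obtain ⟨z, hz⟩ := hE i hi
    exact ⟨z, mem_univ _, hz⟩
  obtain ⟨Z, hZ, hmin⟩ := exists_min_image _ Finset.card hne
  rw [mem_filter] at hZ
  refine ⟨Z, ?_, hZ.2⟩
  by_contra hc
  push Not at hc
  have hpriv : ∀ z : Z, ∃ i ∈ E, z.1 ∈ S i ∧ ∀ z' ∈ Z, z' ∈ S i → z' = z.1 := by
    rintro ⟨z, hz⟩
    by_contra hcon
    push Not at hcon
    have h1 := hmin (Z.erase z) (by
      rw [mem_filter]
      refine ⟨mem_univ _, ?_⟩
      intro i hi
      obtain ⟨z', hz', hzi⟩ := hZ.2 i hi
      by_cases h2 : z' = z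
      · subst h2
        obtain ⟨z'', h3, h4, h5⟩ := hcon i hi hzi
        exact ⟨z'', mem_erase.2 ⟨h5, h3⟩, h4⟩
      · exact ⟨z', mem_erase.2 ⟨h2, hz'⟩, hzi⟩)
    rw [card_erase_of_mem hz] at h1
    have := card_pos.2 ⟨z, hz⟩
    omega
  choose g hg using hpriv
  obtain ⟨e⟩ : Nonempty (Fin (κ + 1) ↪ Z) :=
    Function.Embedding.nonempty_of_card_le (by rw [Fintype.card_fin, Fintype.card_coe]; omega)
  refine h (fun i => (e i).1) (fun i => g (e i)) (fun j => (hg (e j)).1) ?_
  intro i j
  constructor
  · intro h'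
    have := (hg (e j)).2.2 (e i).1 (e i).2 h'
    exact e.injective (Subtype.ext this)
  · rintro rfl
    exact (hg (e i)).2.1

/-- an induced matching in the support of a matrix is not larger than the rank -/
lemma matching_le_rank {m n k : ℕ} {F : Type} [Field F] (B : Matrix (Fin m) (Fin n) F)
    (u : Fin k → Fin n) (s : Fin k → Fin m) (h : ∀ i j, B (s j) (u i) ≠ 0 ↔ i = j) :
    k ≤ B.rank := by
  have hli : LinearIndependent F (fun i => B.row (s i)) := by
    rw [Fintype.linearIndependent_iff]
    intro g hg j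
    have h1 := congrFun hg (u j)
    rw [Finset.sum_apply] at h1
    have h2 : ∑ i, (g i • B.row (s i)) (u j) = g j * B (s j) (u j) := by
      rw [Finset.sum_eq_single j]
      · rfl
      · intro i _ hij
        have h3 : B (s i) (u j) = 0 := by
          by_contra h4
          exact hij ((h j i).1 h4).symm
        show g i * B (s i) (u j) = 0
        rw [h3, mul_zero]
      · intro h
        exact absurd (mem_univ _) h
    rw [h2] at h1
    have h5 : B (s j) (u j) ≠ 0 := (h j j).2 rfl
    rcases mul_eq_zero.1 h1 with h6 | h6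
    · exact h6
    · exact absurd h6 h5
  have h1 := linearIndependent_iff_card_eq_finrank_span.1 hli
  rw [Fintype.card_fin] at h1
  have h2 : (Set.range (fun i => B.row (s i))).finrank F ≤ B.rank := by
    rw [Matrix.rank_eq_finrank_span_row]
    apply Submodule.finrank_mono
    apply Submodule.span_mono
    rintro _ ⟨i, rfl⟩
    exact ⟨s i, rfl⟩
  omega

/-- **Small induced matchings among the long sets.** -/
theorem matchings : ∃ C : ℝ, 1 ≤ C ∧
    ∀ (m n t : ℕ) (S : Fin m → Finset (Fin n)) (K : ℝ) (κ : ℕ), 1 ≤ t → 1 ≤ K →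
      (∀ j, (univ.filter (fun i => j ∈ S i)).card ≤ t) →
      NoMatching S {i | K * Real.sqrt t < ((S i).card : ℝ)} κ →
      ∃ χ : Fin n → ℤ, (∀ j, χ j = 1 ∨ χ j = -1) ∧
        (∀ i, |((∑ j ∈ S i, χ j : ℤ) : ℝ)| ≤ C * (K * Real.sqrt t +
          (1 + Real.log t) ^ (3 / 2 : ℝ) * Real.sqrt (Real.log (2 + κ * t)))) ∧
        ((κ : ℝ) * t ≤ Real.exp (t / (1 + Real.log t) ^ 3) →
          ∀ i, |((∑ j ∈ S i, χ j : ℤ) : ℝ)| ≤ C * (K * Real.sqrt t)) := by
  classical
  obtain ⟨C, -, hC⟩ := Pool.Agent.Results.MP_e8ee11_co.FewLargeSingularValues.result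
  refine ⟨max C 1, le_max_right _ _, ?_⟩
  intro m n t S K κ ht hK hdeg hM
  set E : Finset (Fin m) := univ.filter (fun i => K * Real.sqrt t < ((S i).card : ℝ)) with hE
  have hK0 : 0 ≤ K * Real.sqrt t := mul_nonneg (by linarith) (Real.sqrt_nonneg _)
  obtain ⟨Z, hZ, hZ2⟩ := exists_hitting S E κ (by
    intro i hi
    have h1 := (mem_filter.1 hi).2
    have h2 : (0 : ℝ) < (S i).card := lt_of_le_of_lt hK0 h1
    exact card_pos.1 (by exact_mod_cast h2)) (by
    intro u s hs
    exact hM u s fun j => (mem_filter.1 (mem_coe.1 (hs j))).2)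
  have hEc : E.card ≤ κ * t := by
    have h1 : E ⊆ Z.biUnion (fun z => univ.filter (fun i => z ∈ S i)) := by
      intro i hi
      obtain ⟨z, hz, hzi⟩ := hZ2 i hi
      rw [mem_biUnion]
      exact ⟨z, hz, mem_filter.2 ⟨mem_univ _, hzi⟩⟩
    calc E.card ≤ ∑ z ∈ Z, (univ.filter (fun i => z ∈ S i)).card :=
          (card_le_card h1).trans card_biUnion_le
      _ ≤ ∑ _z ∈ Z, t := sum_le_sum fun z _ => hdeg z
      _ = Z.card * t := by rw [sum_const, smul_eq_mul]
      _ ≤ _ := Nat.mul_le_mul_right _ hZ
  set S' : Fin m → Finset (Fin n) := fun i => if i ∈ E then S i else ∅ with hS'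
  have hsub : ∀ i, S' i ⊆ S i := by
    intro i
    simp only [hS']
    split_ifs
    · exact Subset.refl _
    · exact empty_subset _
  have htR : (1 : ℝ) ≤ t := by exact_mod_cast ht
  obtain ⟨χ, h1, h2, h3⟩ := hC m n t 0 n S' (fun _ => ∅) E K ht hK
    (fun j => (card_le_card (fun i hi => by
      rw [mem_filter] at hi ⊢
      exact ⟨hi.1, hsub i hi.2⟩)).trans (hdeg j))
    (fun j => by simp) (fun i => by simp)
    (by
      refine (card_filter_le _ _).trans ?_
      rw [card_univ, Fintype.card_fin])
    (by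
      intro i hi
      simp only [hS', if_neg hi]
      exact Subset.refl _)
  have hmin : min ((n : ℝ) * ((0 : ℕ) : ℝ)) (n : ℝ) = 0 := by
    rw [Nat.cast_zero, mul_zero]
    exact min_eq_left (Nat.cast_nonneg _)
  have hEr : (E.card : ℝ) ≤ κ * t := by exact_mod_cast hEc
  have hlog : 0 ≤ (1 + Real.log (t : ℝ)) ^ (3 / 2 : ℝ) := by
    have := Real.log_nonneg htR
    positivity
  have hmono : Real.sqrt (Real.log (2 + E.card + min ((n : ℝ) * ((0 : ℕ) : ℝ)) (n : ℝ))) ≤
      Real.sqrt (Real.log (2 + κ * t)) := by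
    rw [hmin, add_zero]
    apply Real.sqrt_le_sqrt
    apply Real.log_le_log
    · positivity
    · linarith
  have hshort : ∀ i, i ∉ E → |((∑ j ∈ S i, χ j : ℤ) : ℝ)| ≤ K * Real.sqrt t := by
    intro i hi
    have e1 : ((S i).card : ℝ) ≤ K * Real.sqrt t := by
      by_contra hc
      push Not at hc
      exact hi (mem_filter.2 ⟨mem_univ _, hc⟩)
    refine le_trans ?_ e1
    push_cast
    refine (abs_sum_le_sum_abs _ _).trans ?_
    calc ∑ j ∈ S i, |(χ j : ℝ)| = ∑ _j ∈ S i, (1 : ℝ) := by
          apply sum_congr rfl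
          intro j _
          rcases h1 j with h | h <;> rw [h] <;> norm_num
      _ = ((S i).card : ℝ) := by rw [sum_const, nsmul_eq_mul, mul_one]
      _ ≤ _ := le_rfl
  refine ⟨χ, h1, fun i => ?_, fun hexp i => ?_⟩
  · set W : ℝ := K * Real.sqrt t + (1 + Real.log t) ^ (3 / 2 : ℝ) *
      Real.sqrt (Real.log (2 + κ * t)) with hW
    have hW0 : K * Real.sqrt t ≤ W := by
      have : 0 ≤ (1 + Real.log (t : ℝ)) ^ (3 / 2 : ℝ) * Real.sqrt (Real.log (2 + κ * t)) :=
        mul_nonneg hlog (Real.sqrt_nonneg _)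
      linarith
    by_cases hi : i ∈ E
    · have e1 := h2 i
      simp only [hS', if_pos hi] at e1
      set W' : ℝ := K * Real.sqrt t + (1 + Real.log t) ^ (3 / 2 : ℝ) *
        Real.sqrt (Real.log (2 + E.card + min ((n : ℝ) * ((0 : ℕ) : ℝ)) (n : ℝ))) with hW'
      have hW'0 : 0 ≤ W' := by
        have : 0 ≤ (1 + Real.log (t : ℝ)) ^ (3 / 2 : ℝ) *
          Real.sqrt (Real.log (2 + E.card + min ((n : ℝ) * ((0 : ℕ) : ℝ)) (n : ℝ))) :=
          mul_nonneg hlog (Real.sqrt_nonneg _)
        linarith
      have hWW : W' ≤ W := by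
        have := mul_le_mul_of_nonneg_left hmono hlog
        linarith
      calc _ ≤ C * W' := e1
        _ ≤ max C 1 * W' := mul_le_mul_of_nonneg_right (le_max_left _ _) hW'0
        _ ≤ max C 1 * W := mul_le_mul_of_nonneg_left hWW (le_trans zero_le_one (le_max_right _ _))
    · calc _ ≤ K * Real.sqrt t := hshort i hi
        _ ≤ 1 * W := by rw [one_mul]; exact hW0
        _ ≤ max C 1 * W := mul_le_mul_of_nonneg_right (le_max_right _ _) (hK0.trans hW0)
  · by_cases hi : i ∈ E
    · have e1 := h3 (by rw [hmin, add_zero]; exact hEr.trans hexp) i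
      simp only [hS', if_pos hi] at e1
      exact e1.trans (mul_le_mul_of_nonneg_right (le_max_left _ _) hK0)
    · calc _ ≤ K * Real.sqrt t := hshort i hi
        _ = 1 * (K * Real.sqrt t) := (one_mul _).symm
        _ ≤ max C 1 * (K * Real.sqrt t) := mul_le_mul_of_nonneg_right (le_max_right _ _) hK0

/-! ### Equality relations -/

/-- **Combinations of equality relations.** -/
theorem combinations {ι : Type} [Fintype ι] {m n : ℕ} (a : ι → ℝ) (f : ι → Fin n → ℕ)
    (g : ι → Fin m → ℕ) :
    ∃ χ : Fin n → ℝ, (∀ j, χ j = 1 ∨ χ j = -1) ∧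
      ∀ i, |∑ j, (∑ l, if f l j = g l i then a l else 0) * χ j| ≤
        Fintype.card ι * ∑ l, |a l| := by
  classical
  obtain ⟨L, hL⟩ : ∃ L : ℕ, ∀ l j, f l j < L := by
    refine ⟨(univ : Finset (ι × Fin n)).sup (fun p => f p.1 p.2) + 1, fun l j => ?_⟩
    exact Nat.lt_succ_of_le (le_sup (f := fun p : ι × Fin n => f p.1 p.2) (mem_univ (l, j)))
  set N := Fintype.card ι with hN
  set e := (Fintype.equivFin (ι × Fin L)).symm with he
  set A : Fin (Fintype.card (ι × Fin L)) → Fin n → ℝ := fun r j =>
    if f (e r).1 j = (e r).2.1 then 1 else 0 with hA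
  have hrow : ∀ (X : Finset (Fin n)) r, ∑ j ∈ X, |A r j| =
      ((X.filter (fun j => f (e r).1 j = (e r).2.1)).card : ℝ) := by
    intro X r
    rw [card_filter]
    push_cast
    apply sum_congr rfl
    intro j _
    simp only [hA]
    split_ifs <;> simp
  obtain ⟨x, hx⟩ := H294BF.hall_signing A (fun _ => (N : ℝ)) (fun _ => Nat.cast_nonneg _) (by
    intro X hX
    set Bad := (univ : Finset (Fin (Fintype.card (ι × Fin L)))).filter
      (fun r => (N : ℝ) < ∑ j ∈ X, |A r j|) with hBad
    have h1 : ∀ r ∈ Bad, N + 1 ≤ (X.filter (fun j => f (e r).1 j = (e r).2.1)).card := by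
      intro r hr
      have h2 := (mem_filter.1 hr).2
      rw [hrow] at h2
      exact_mod_cast h2
    have h2 : Bad.card * (N + 1) ≤ N * X.card := by
      calc Bad.card * (N + 1) = ∑ _r ∈ Bad, (N + 1) := by rw [sum_const, smul_eq_mul]
        _ ≤ ∑ r ∈ Bad, (X.filter (fun j => f (e r).1 j = (e r).2.1)).card := sum_le_sum h1
        _ ≤ ∑ r, (X.filter (fun j => f (e r).1 j = (e r).2.1)).card :=
            sum_le_sum_of_subset_of_nonneg (subset_univ _) fun _ _ _ => Nat.zero_le _
        _ = ∑ p : ι × Fin L, (X.filter (fun j => f p.1 j = p.2.1)).card :=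
            Equiv.sum_comp e (fun p : ι × Fin L => (X.filter (fun j => f p.1 j = p.2.1)).card)
        _ = ∑ l : ι, ∑ c : Fin L, (X.filter (fun j => f l j = c.1)).card :=
            Fintype.sum_prod_type _
        _ = ∑ _l : ι, X.card := by
            apply sum_congr rfl
            intro l _
            have h3 := card_eq_sum_card_fiberwise (f := fun j => (⟨f l j, hL l j⟩ : Fin L))
              (s := X) (t := univ) (fun _ _ => mem_coe.2 (mem_univ _))
            rw [h3]
            apply sum_congr rfl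
            intro c _
            congr 1
            ext j
            simp only [mem_filter, Fin.ext_iff]
        _ = N * X.card := by rw [sum_const, smul_eq_mul, card_univ]
    have h3 : 0 < X.card := card_pos.2 hX
    by_contra hc
    push Not at hc
    have h4 : X.card * (N + 1) ≤ Bad.card * (N + 1) := Nat.mul_le_mul_right _ hc
    have h5 : X.card * (N + 1) = N * X.card + X.card := by ring
    omega)
  refine ⟨fun j => H294BF.sg (x j), fun j => by
    rcases Bool.eq_false_or_eq_true (x j) with h | h <;> simp [H294BF.sg, h], ?_⟩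
  intro i
  have hcl : ∀ l, |∑ j, (if f l j = g l i then (1 : ℝ) else 0) * H294BF.sg (x j)| ≤ N := by
    intro l
    by_cases hgl : g l i < L
    · have h1 := hx (e.symm (l, ⟨g l i, hgl⟩))
      have h2 : H294BF.row A x (e.symm (l, ⟨g l i, hgl⟩)) =
          ∑ j, (if f l j = g l i then (1 : ℝ) else 0) * H294BF.sg (x j) := by
        unfold H294BF.row
        apply sum_congr rfl
        intro j _
        simp only [hA, Equiv.apply_symm_apply]
      rwa [h2] at h1
    · have h1 : ∑ j, (if f l j = g l i then (1 : ℝ) else 0) * H294BF.sg (x j) = 0 := by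
        apply sum_eq_zero
        intro j _
        rw [if_neg, zero_mul]
        have := hL l j
        omega
      rw [h1, abs_zero]
      exact Nat.cast_nonneg _
  have hsw : ∑ j, (∑ l, if f l j = g l i then a l else 0) * H294BF.sg (x j) =
      ∑ l, a l * ∑ j, (if f l j = g l i then (1 : ℝ) else 0) * H294BF.sg (x j) := by
    simp only [sum_mul, mul_sum]
    rw [sum_comm]
    apply sum_congr rfl
    intro l _
    apply sum_congr rfl
    intro j _
    split_ifs <;> simp
  rw [hsw]
  calc |∑ l, a l * ∑ j, (if f l j = g l i then (1 : ℝ) else 0) * H294BF.sg (x j)|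
      ≤ ∑ l, |a l * ∑ j, (if f l j = g l i then (1 : ℝ) else 0) * H294BF.sg (x j)| :=
        abs_sum_le_sum_abs _ _
    _ ≤ ∑ l, |a l| * N := by
        apply sum_le_sum
        intro l _
        rw [abs_mul]
        exact mul_le_mul_of_nonneg_left (hcl l) (abs_nonneg _)
    _ = N * ∑ l, |a l| := by rw [← sum_mul, mul_comm]

/-- A protocol with equality queries for an element of `α` and an element of `β`: in a query both
get a label and one asks whether the two labels are equal. The output is a real number. -/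
inductive EqTree (α β : Type) : Type
  | leaf (x : ℝ) : EqTree α β
  | query (f : α → ℕ) (g : β → ℕ) (yes no : EqTree α β) : EqTree α β

namespace EqTree

variable {α β : Type}

/-- the output -/
def value : EqTree α β → α → β → ℝ
  | leaf x, _, _ => x
  | query f g yes no, u, v => if f u = g v then yes.value u v else no.value u v

/-- the largest number of queries -/
def cost : EqTree α β → ℕ
  | leaf _ => 0
  | query _ _ yes no => max yes.cost no.cost + 1

/-- the outputs are in `[-1, 1]` -/
def Bounded : EqTree α β → Prop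
  | leaf x => |x| ≤ 1
  | query _ _ yes no => yes.Bounded ∧ no.Bounded

/-- a protocol is a combination of `3 ^ cost` equality relations -/
lemma expand : ∀ T : EqTree α β, T.Bounded → ∃ (ι : Type) (_ : Fintype ι) (a : ι → ℝ)
    (f : ι → α → ℕ) (g : ι → β → ℕ), Fintype.card ι ≤ 3 ^ T.cost ∧ (∀ l, |a l| ≤ 1) ∧
    ∀ u v, T.value u v = ∑ l, if f l u = g l v then a l else 0
  | leaf x, hx => ⟨Unit, inferInstance, fun _ => x, fun _ _ => 0, fun _ _ => 0, by simp [cost],
      fun _ => hx, fun u v => by simp [value]⟩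
  | query f0 g0 yes no, hT => by
    obtain ⟨ι, _, a, f, g, h1, h2, h3⟩ := expand yes hT.1
    obtain ⟨ι', _, a', f', g', h1', h2', h3'⟩ := expand no hT.2
    refine ⟨ι ⊕ (ι' ⊕ ι'), inferInstance,
      Sum.elim a (Sum.elim a' (fun l => - a' l)),
      Sum.elim (fun l u => Nat.pair (f0 u) (f l u))
        (Sum.elim f' (fun l u => Nat.pair (f0 u) (f' l u))),
      Sum.elim (fun l v => Nat.pair (g0 v) (g l v))
        (Sum.elim g' (fun l v => Nat.pair (g0 v) (g' l v))), ?_, ?_, ?_⟩
    · rw [Fintype.card_sum, Fintype.card_sum, cost, pow_succ]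
      have e1 : (3 : ℕ) ^ yes.cost ≤ 3 ^ (max yes.cost no.cost) :=
        Nat.pow_le_pow_right (by norm_num) (le_max_left _ _)
      have e2 : (3 : ℕ) ^ no.cost ≤ 3 ^ (max yes.cost no.cost) :=
        Nat.pow_le_pow_right (by norm_num) (le_max_right _ _)
      omega
    · intro l
      rcases l with l | l | l
      · exact h2 l
      · exact h2' l
      · simp only [Sum.elim_inr, abs_neg]
        exact h2' l
    · intro u v
      rw [Fintype.sum_sum_type, Fintype.sum_sum_type]
      show (if f0 u = g0 v then yes.value u v else no.value u v) =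
        (∑ l, if Nat.pair (f0 u) (f l u) = Nat.pair (g0 v) (g l v) then a l else 0) +
        ((∑ l, if f' l u = g' l v then a' l else 0) +
          ∑ l, if Nat.pair (f0 u) (f' l u) = Nat.pair (g0 v) (g' l v) then - a' l else 0)
      by_cases hfg : f0 u = g0 v
      · have k1 : ∀ l, (if Nat.pair (f0 u) (f l u) = Nat.pair (g0 v) (g l v) then a l else 0) =
            (if f l u = g l v then a l else 0) := by
          intro l
          simp [Nat.pair_eq_pair, hfg]
        have k2 : ∀ l, (if Nat.pair (f0 u) (f' l u) = Nat.pair (g0 v) (g' l v) then - a' l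
            else 0) = - (if f' l u = g' l v then a' l else 0) := by
          intro l
          simp only [Nat.pair_eq_pair, hfg, true_and]
          split_ifs <;> simp
        simp only [k1, k2, sum_neg_distrib]
        rw [if_pos hfg, h3 u v]
        ring
      · have k1 : ∀ l, (if Nat.pair (f0 u) (f l u) = Nat.pair (g0 v) (g l v) then a l else 0) =
            0 := by
          intro l
          rw [if_neg]
          intro h
          exact hfg (Nat.pair_eq_pair.1 h).1
        have k2 : ∀ l, (if Nat.pair (f0 u) (f' l u) = Nat.pair (g0 v) (g' l v) then - a' l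
            else 0) = 0 := by
          intro l
          rw [if_neg]
          intro h
          exact hfg (Nat.pair_eq_pair.1 h).1
        simp only [k1, k2, sum_const_zero]
        rw [if_neg hfg, h3' u v]
        ring

end EqTree

/-- **Matrices computed by equality queries.** -/
theorem queries {m n : ℕ} (T : EqTree (Fin n) (Fin m)) (hT : T.Bounded) :
    ∃ χ : Fin n → ℝ, (∀ j, χ j = 1 ∨ χ j = -1) ∧
      ∀ i, |∑ j, T.value j i * χ j| ≤ 9 ^ T.cost := by
  obtain ⟨ι, _, a, f, g, h1, h2, h3⟩ := T.expand hT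
  obtain ⟨χ, h4, h5⟩ := combinations a f g
  refine ⟨χ, h4, fun i => ?_⟩
  have h6 := h5 i
  simp only [← h3] at h6
  refine h6.trans ?_
  have h7 : ∑ l, |a l| ≤ Fintype.card ι := by
    calc ∑ l, |a l| ≤ ∑ _l : ι, (1 : ℝ) := sum_le_sum fun l _ => h2 l
      _ = Fintype.card ι := by rw [sum_const, nsmul_eq_mul, mul_one, card_univ]
  have h8 : (Fintype.card ι : ℝ) ≤ 3 ^ T.cost := by exact_mod_cast h1
  calc (Fintype.card ι : ℝ) * ∑ l, |a l| ≤ 3 ^ T.cost * 3 ^ T.cost :=
        mul_le_mul h8 (h7.trans h8) (sum_nonneg fun _ _ => abs_nonneg _) (by positivity)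
    _ = 9 ^ T.cost := by rw [← mul_pow]; norm_num

/-- **The Beck-Fiala problem for incidence relations of low complexity.** -/
theorem result : ∃ C : ℝ,
    -- (1) small induced matchings among the long sets
    (∀ (m n t : ℕ) (S : Fin m → Finset (Fin n)) (K : ℝ) (κ : ℕ), 1 ≤ t → 1 ≤ K →
      (∀ j, (univ.filter (fun i => j ∈ S i)).card ≤ t) →
      NoMatching S {i | K * Real.sqrt t < ((S i).card : ℝ)} κ →
      ∃ χ : Fin n → ℤ, (∀ j, χ j = 1 ∨ χ j = -1) ∧
        (∀ i, |((∑ j ∈ S i, χ j : ℤ) : ℝ)| ≤ C * (K * Real.sqrt t +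
          (1 + Real.log t) ^ (3 / 2 : ℝ) * Real.sqrt (Real.log (2 + κ * t)))) ∧
        ((κ : ℝ) * t ≤ Real.exp (t / (1 + Real.log t) ^ 3) →
          ∀ i, |((∑ j ∈ S i, χ j : ℤ) : ℝ)| ≤ C * (K * Real.sqrt t))) ∧
    -- (2) small rank over some field
    (∀ (m n t : ℕ) (S : Fin m → Finset (Fin n)) (F : Type) [Field F]
      (B : Matrix (Fin m) (Fin n) F), 1 ≤ t →
      (∀ j, (univ.filter (fun i => j ∈ S i)).card ≤ t) → (∀ i j, B i j ≠ 0 ↔ j ∈ S i) →
      (B.rank : ℝ) * t ≤ Real.exp (t / (1 + Real.log t) ^ 3) →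
      ∃ χ : Fin n → ℤ, (∀ j, χ j = 1 ∨ χ j = -1) ∧
        ∀ i, |((∑ j ∈ S i, χ j : ℤ) : ℝ)| ≤ C * Real.sqrt t) ∧
    -- (3) sets decided by equality queries
    (∀ (m n : ℕ) (S : Fin m → Finset (Fin n)) (T : EqTree (Fin n) (Fin m)),
      (∀ i j, T.value j i = if j ∈ S i then 1 else 0) → T.Bounded →
      ∃ χ : Fin n → ℤ, (∀ j, χ j = 1 ∨ χ j = -1) ∧
        (∀ i, |((∑ j ∈ S i, χ j : ℤ) : ℝ)| ≤ 9 ^ T.cost) ∧
        ∀ t : ℕ, 81 ^ T.cost ≤ t → ∀ i, |((∑ j ∈ S i, χ j : ℤ) : ℝ)| ≤ Real.sqrt t) ∧
    -- (4) matrices computed by equality queries, and combinations of equality relations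
    (∀ (m n : ℕ) (T : EqTree (Fin n) (Fin m)), T.Bounded →
      ∃ χ : Fin n → ℝ, (∀ j, χ j = 1 ∨ χ j = -1) ∧
        ∀ i, |∑ j, T.value j i * χ j| ≤ 9 ^ T.cost) ∧
    (∀ (m n N : ℕ) (a : Fin N → ℝ) (f : Fin N → Fin n → ℕ) (g : Fin N → Fin m → ℕ),
      ∃ χ : Fin n → ℝ, (∀ j, χ j = 1 ∨ χ j = -1) ∧
        ∀ i, |∑ j, (∑ l, if f l j = g l i then a l else 0) * χ j| ≤ N * ∑ l, |a l|) := by
  classical
  obtain ⟨C, hC1, hC⟩ := matchings
  refine ⟨C, hC, ?_, ?_, fun m n T hT => queries T hT, ?_⟩
  · intro m n t S F _ B ht hdeg hB hrank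
    obtain ⟨χ, h1, -, h3⟩ := hC m n t S 1 B.rank ht le_rfl hdeg (by
      intro u s _ h
      have := matching_le_rank B u s fun i j => by rw [hB]; exact h i j
      omega)
    refine ⟨χ, h1, fun i => ?_⟩
    have := h3 hrank i
    rwa [one_mul] at this
  · intro m n S T hT hb
    obtain ⟨χ, h1, h2⟩ := queries T hb
    have h3 : ∀ i, |((∑ j ∈ S i, (if χ j = 1 then 1 else -1 : ℤ) : ℤ) : ℝ)| ≤ 9 ^ T.cost := by
      intro i
      have hχ : ∀ j, (((if χ j = 1 then 1 else -1 : ℤ)) : ℝ) = χ j := by
        intro j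
        rcases h1 j with h | h
        · simp [h]
        · rw [if_neg (by rw [h]; norm_num), h]; norm_num
      have e : ((∑ j ∈ S i, (if χ j = 1 then 1 else -1 : ℤ) : ℤ) : ℝ) =
          ∑ j, T.value j i * χ j := by
        rw [Int.cast_sum]
        simp only [hχ, hT, ite_mul, one_mul, zero_mul]
        rw [← Finset.sum_filter]
        exact Finset.sum_congr (by ext j; simp) fun j _ => rfl
      rw [e]
      exact h2 i
    refine ⟨fun j => if χ j = 1 then 1 else -1, fun j => by dsimp only; split_ifs <;> simp, h3,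
      fun t ht i => (h3 i).trans ?_⟩
    apply Real.le_sqrt_of_sq_le
    have : ((9 : ℝ) ^ T.cost) ^ 2 = 81 ^ T.cost := by
      rw [← pow_mul, mul_comm, pow_mul]
      norm_num
    rw [this]
    exact_mod_cast ht
  · intro m n N a f g
    have := combinations a f g
    rwa [Fintype.card_fin] at this

end Pool.Agent.Results.MP_e8ee11_co.LowComplexityIncidences
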