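import Pool.Agent.Run7.h715.Mat.BF

/-!
# The Beck-Fiala problem for bases of matroids and for families with bounded exchange blocks

Let `S_1, …, S_m` be subsets of `[n]` of maximum degree at most `t`, let `𝓑` be a family of subsets
of `[n]` and let `x⁰` be a convex combination of the indicator vectors of its members. We look for
a member `B` of `𝓑` for which all the numbers `|S_i ∩ B| - ∑_{j ∈ S_i} x⁰_j` are small. (For the
family of all subsets and `x⁰ = (1/2, …, 1/2)` this is the problem of Beck and Fiala.)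

The family has exchange blocks of size at most `s` (`ExchangeBlocks 𝓑 s`) if for any two members
`B`, `B'` the symmetric difference `B ∆ B'` can be divided into blocks of at most `s` elements such
that `B ∆ U` is a member for every union `U` of blocks. The bases of a strongly base orderable
matroid (for example a transversal matroid, a gammoid, a laminar or a partition matroid) have
exchange blocks of size at most two, and so have its independent sets.

(1) There is always a member `B` of `𝓑` with all these numbers at most `s t`.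

(2) There is an absolute constant `C` such that there is always a member `B` with all these numbers
at most `C s (√t + (1 + log t)^{3/2} √(log (1 + min m n)))`.

(3) So for every point of the base polytope, or of the independent set polytope, of a strongly base
orderable matroid there is a base, or an independent set, with all numbers at most
`C (√t + (1 + log t)^{3/2} √(log (1 + min m n)))`.

(4), (5) The Beck-Fiala conjecture holds if and only if there is a constant `c` such that there is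
always a member `B` with all numbers at most `c s √(s t)`; and if and only if there is a constant
`c` such that for all strongly base orderable matroids there are always a base and an independent
set, for the points of the base polytope and of the independent set polytope, with all numbers at
most `c √t`.
-/

set_option autoImplicit false

namespace Pool.Agent.Results.MP_e8ee11_co.MatroidBases

open Run7.h715.Mat Run7.h715.Mat.BF

/-- The convex hull of the indicator vectors of the members of the family. -/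
def Hull {n : ℕ} (𝓑 : Set (Finset (Fin n))) : Set (Fin n → ℝ) :=
  convexHull ℝ {y | ∃ B ∈ 𝓑, y = fun j => if j ∈ B then 1 else 0}

/-- Some colouring has discrepancy at most `β` on the set system. -/
def HasColouring {m n : ℕ} (S : Fin m → Finset (Fin n)) (β : ℝ) : Prop :=
  ∃ χ : Fin n → ℝ, (∀ j, χ j = 1 ∨ χ j = -1) ∧ ∀ i, |∑ j ∈ S i, χ j| ≤ β

/-- Some member `B` of the family is such that all the numbers `|S_i ∩ B| - ∑_{j ∈ S_i} x_j` are at
most `R` in absolute value. -/
def HasRounding {m n : ℕ} (S : Fin m → Finset (Fin n)) (𝓑 : Set (Finset (Fin n))) (x : Fin n → ℝ)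
    (R : ℝ) : Prop :=
  ∃ B ∈ 𝓑, ∀ i, |((S i ∩ B).card : ℝ) - ∑ j ∈ S i, x j| ≤ R

theorem hull_eq {n : ℕ} (𝓑 : Set (Finset (Fin n))) :
    Hull 𝓑 = convexHull ℝ {y | ∃ B ∈ 𝓑, y = ind B} := rfl

theorem part1 (m n t s : ℕ) (S : Fin m → Finset (Fin n)) (𝓑 : Set (Finset (Fin n)))
    (x : Fin n → ℝ) (hS : DegreeLE S t) (h𝓑 : ExchangeBlocks 𝓑 s) (hx : x ∈ Hull 𝓑) :
    HasRounding S 𝓑 x (s * t) :=
  round_st S hS h𝓑 hx

theorem part2 : ∃ C : ℝ, ∀ (m n t s : ℕ) (S : Fin m → Finset (Fin n))
    (𝓑 : Set (Finset (Fin n))) (x : Fin n → ℝ), DegreeLE S t → 1 ≤ s → ExchangeBlocks 𝓑 s →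
    x ∈ Hull 𝓑 → HasRounding S 𝓑 x (C * s * (Real.sqrt t + (1 + Real.log t) ^ (3 / 2 : ℝ) *
      Real.sqrt (Real.log (1 + (min m n : ℕ))))) := by
  obtain ⟨C, _, hC⟩ := round_sqrt
  exact ⟨C, fun m n t s S 𝓑 x hS hs h𝓑 hx => hC m n t s S 𝓑 x hS hs h𝓑 hx⟩

theorem part3 : ∃ C : ℝ, ∀ (m n t : ℕ) (S : Fin m → Finset (Fin n)) (M : Matroid (Fin n))
    (x : Fin n → ℝ), DegreeLE S t → StronglyBaseOrderable M →
    (x ∈ Hull (bases M) → HasRounding S (bases M) x
      (C * (Real.sqrt t + (1 + Real.log t) ^ (3 / 2 : ℝ) *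
        Real.sqrt (Real.log (1 + (min m n : ℕ)))))) ∧
    (x ∈ Hull (indeps M) → HasRounding S (indeps M) x
      (C * (Real.sqrt t + (1 + Real.log t) ^ (3 / 2 : ℝ) *
        Real.sqrt (Real.log (1 + (min m n : ℕ)))))) := by
  obtain ⟨C, hC⟩ := part2
  refine ⟨C * 2, fun m n t S M x hS hM => ⟨fun hx => ?_, fun hx => ?_⟩⟩
  · exact_mod_cast hC m n t 2 S _ x hS (by norm_num) (exchange_bases hM) hx
  · exact_mod_cast hC m n t 2 S _ x hS (by norm_num) (exchange_indeps hM) hx

theorem half_mem (n : ℕ) : (fun _ : Fin n => (1:ℝ) / 2) ∈ Hull (Set.univ : Set (Finset (Fin n))) := by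
  have h0 : (fun j : Fin n => if j ∈ (∅ : Finset (Fin n)) then (1:ℝ) else 0) ∈
      Hull (Set.univ : Set (Finset (Fin n))) :=
    subset_convexHull ℝ _ ⟨∅, Set.mem_univ _, rfl⟩
  have h1 : (fun j : Fin n => if j ∈ (Finset.univ : Finset (Fin n)) then (1:ℝ) else 0) ∈
      Hull (Set.univ : Set (Finset (Fin n))) :=
    subset_convexHull ℝ _ ⟨Finset.univ, Set.mem_univ _, rfl⟩
  have h2 := (convex_convexHull ℝ {y | ∃ B ∈ (Set.univ : Set (Finset (Fin n))),
    y = fun j => if j ∈ B then (1:ℝ) else 0}) h0 h1 (by norm_num : (0:ℝ) ≤ 1 / 2)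
    (by norm_num : (0:ℝ) ≤ 1 / 2) (by norm_num)
  have h3 : (1 / 2 : ℝ) • (fun j : Fin n => if j ∈ (∅ : Finset (Fin n)) then (1:ℝ) else 0) +
      (1 / 2 : ℝ) • (fun j : Fin n => if j ∈ (Finset.univ : Finset (Fin n)) then (1:ℝ) else 0) =
      fun _ => (1:ℝ) / 2 := by
    funext j
    simp
  rw [h3] at h2
  exact h2

theorem colouring_of_rounding {m n : ℕ} (S : Fin m → Finset (Fin n)) (c : ℝ)
    (h : HasRounding S (Set.univ : Set (Finset (Fin n))) (fun _ => 1 / 2) c) :
    HasColouring S (2 * c) := by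
  classical
  obtain ⟨B, _, hB⟩ := h
  refine ⟨fun j => if j ∈ B then 1 else -1, fun j => ?_, fun k => ?_⟩
  · show (if j ∈ B then (1:ℝ) else -1) = 1 ∨ (if j ∈ B then (1:ℝ) else -1) = -1
    by_cases hj : j ∈ B <;> simp [hj]
  · have h1 : ∑ j ∈ S k, (if j ∈ B then (1:ℝ) else -1) =
        2 * (((S k ∩ B).card : ℝ) - ∑ j ∈ S k, (1:ℝ) / 2) := by
      have e1 : ((S k ∩ B).card : ℝ) = ∑ j ∈ S k, (if j ∈ B then (1:ℝ) else 0) := by
        rw [← Finset.filter_mem_eq_inter, Finset.card_filter]
        push_cast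
        rfl
      rw [e1, ← Finset.sum_sub_distrib, Finset.mul_sum]
      refine Finset.sum_congr rfl fun j _ => ?_
      by_cases hj : j ∈ B
      · simp only [hj, if_true]; ring
      · simp only [hj, if_false]; ring
    rw [h1, abs_mul, abs_two]
    exact mul_le_mul_of_nonneg_left (hB k) (by norm_num)

theorem transfer {c : ℝ} (hc : 0 ≤ c)
    (h : ∀ (m n t : ℕ) (S : Fin m → Finset (Fin n)), DegreeLE S t →
      HasColouring S (c * Real.sqrt t))
    (m n t s : ℕ) (S : Fin m → Finset (Fin n)) (𝓑 : Set (Finset (Fin n))) (x : Fin n → ℝ)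
    (hS : DegreeLE S t) (h𝓑 : ExchangeBlocks 𝓑 s) (hx : x ∈ Hull 𝓑) :
    HasRounding S 𝓑 x (2 * c * (s * Real.sqrt (s * t))) := by
  classical
  obtain ⟨B, hB1, hB2⟩ := round_exact h𝓑 (inc S) (inc_abs S)
    (fun w : Fin m → ℝ => ∃ (D : Finset (Fin n)) (σ : Fin n → ℝ), D.card ≤ s ∧
      (∀ j, σ j = 1 ∨ σ j = -1) ∧ w = fun i => ∑ j ∈ D, σ j * inc S j i)
    (fun D hD σ hσ => ⟨D, σ, hD, hσ, rfl⟩) (2 * s * (c * Real.sqrt (s * t))) (by positivity)
    (fun N => signable_bf hc h S hS N) hx
  refine ⟨B, hB1, fun i => ?_⟩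
  have := hB2 i
  rw [sum_card, sum_set] at this
  refine this.trans (le_of_eq ?_)
  ring

theorem part4 :
    (∃ c : ℝ, 0 < c ∧ ∀ (m n t : ℕ) (S : Fin m → Finset (Fin n)), DegreeLE S t →
      HasColouring S (c * Real.sqrt t)) ↔
    ∃ c : ℝ, 0 < c ∧ ∀ (m n t s : ℕ) (S : Fin m → Finset (Fin n)) (𝓑 : Set (Finset (Fin n)))
      (x : Fin n → ℝ), DegreeLE S t → ExchangeBlocks 𝓑 s → x ∈ Hull 𝓑 →
      HasRounding S 𝓑 x (c * (s * Real.sqrt (s * t))) := by
  constructor
  · rintro ⟨c, hc, h⟩
    exact ⟨2 * c, by positivity, fun m n t s S 𝓑 x hS h𝓑 hx =>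
      transfer hc.le h m n t s S 𝓑 x hS h𝓑 hx⟩
  · rintro ⟨c, hc, h⟩
    refine ⟨2 * c, by positivity, fun m n t S hS => ?_⟩
    have h1 := h m n t 1 S Set.univ (fun _ => 1 / 2) hS exchange_univ (half_mem n)
    rw [Nat.cast_one, one_mul, one_mul] at h1
    have h2 := colouring_of_rounding S _ h1
    rw [← mul_assoc] at h2
    exact h2

/-- The free matroid. -/
theorem free_sbo (n : ℕ) : StronglyBaseOrderable (Matroid.freeOn (Set.univ : Set (Fin n))) := by
  intro B B' hB hB'
  rw [Matroid.freeOn_isBase_iff] at hB hB'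
  subst hB
  subst hB'
  refine ⟨id, Set.bijOn_id _, fun X _ => ?_⟩
  rw [Matroid.freeOn_isBase_iff, Set.image_id]
  exact Set.diff_union_of_subset (Set.subset_univ _)

theorem free_indeps (n : ℕ) :
    indeps (Matroid.freeOn (Set.univ : Set (Fin n))) = Set.univ := by
  ext I
  simp only [indeps, Set.mem_setOf_eq, Matroid.freeOn_indep_iff, Set.mem_univ, iff_true]
  exact Set.subset_univ _

theorem part5 :
    (∃ c : ℝ, 0 < c ∧ ∀ (m n t : ℕ) (S : Fin m → Finset (Fin n)), DegreeLE S t →
      HasColouring S (c * Real.sqrt t)) ↔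
    ∃ c : ℝ, 0 < c ∧ ∀ (m n t : ℕ) (S : Fin m → Finset (Fin n)) (M : Matroid (Fin n))
      (x : Fin n → ℝ), DegreeLE S t → StronglyBaseOrderable M →
      (x ∈ Hull (bases M) → HasRounding S (bases M) x (c * Real.sqrt t)) ∧
      (x ∈ Hull (indeps M) → HasRounding S (indeps M) x (c * Real.sqrt t)) := by
  constructor
  · rintro ⟨c, hc, h⟩
    have key : ∀ t : ℕ, 2 * c * (((2 : ℕ) : ℝ) * Real.sqrt (((2 : ℕ) : ℝ) * t)) =
        4 * Real.sqrt 2 * c * Real.sqrt t := by
      intro t
      push_cast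
      rw [Real.sqrt_mul (by norm_num)]
      ring
    refine ⟨4 * Real.sqrt 2 * c, by positivity, fun m n t S M x hS hM =>
      ⟨fun hx => ?_, fun hx => ?_⟩⟩
    · rw [← key]
      exact transfer hc.le h m n t 2 S _ x hS (exchange_bases hM) hx
    · rw [← key]
      exact transfer hc.le h m n t 2 S _ x hS (exchange_indeps hM) hx
  · rintro ⟨c, hc, h⟩
    refine ⟨2 * c, by positivity, fun m n t S hS => ?_⟩
    have h1 := (h m n t S (Matroid.freeOn Set.univ) (fun _ => 1 / 2) hS (free_sbo n)).2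
    rw [free_indeps] at h1
    have h2 := colouring_of_rounding S _ (h1 (half_mem n))
    rw [← mul_assoc] at h2
    exact h2

/-- **The Beck-Fiala problem for bases of matroids**: see the header of the file. -/
theorem result :
    -- (1) the dimension free bound
    (∀ (m n t s : ℕ) (S : Fin m → Finset (Fin n)) (𝓑 : Set (Finset (Fin n)))
      (x : Fin n → ℝ), DegreeLE S t → ExchangeBlocks 𝓑 s → x ∈ Hull 𝓑 →
      HasRounding S 𝓑 x (s * t)) ∧
    -- (2) the bound of order `√t`
    (∃ C : ℝ, ∀ (m n t s : ℕ) (S : Fin m → Finset (Fin n))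
      (𝓑 : Set (Finset (Fin n))) (x : Fin n → ℝ), DegreeLE S t → 1 ≤ s → ExchangeBlocks 𝓑 s →
      x ∈ Hull 𝓑 → HasRounding S 𝓑 x (C * s * (Real.sqrt t + (1 + Real.log t) ^ (3 / 2 : ℝ) *
        Real.sqrt (Real.log (1 + (min m n : ℕ)))))) ∧
    -- (3) strongly base orderable matroids
    (∃ C : ℝ, ∀ (m n t : ℕ) (S : Fin m → Finset (Fin n)) (M : Matroid (Fin n))
      (x : Fin n → ℝ), DegreeLE S t → StronglyBaseOrderable M →
      (x ∈ Hull (bases M) → HasRounding S (bases M) x
        (C * (Real.sqrt t + (1 + Real.log t) ^ (3 / 2 : ℝ) *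
          Real.sqrt (Real.log (1 + (min m n : ℕ)))))) ∧
      (x ∈ Hull (indeps M) → HasRounding S (indeps M) x
        (C * (Real.sqrt t + (1 + Real.log t) ^ (3 / 2 : ℝ) *
          Real.sqrt (Real.log (1 + (min m n : ℕ))))))) ∧
    -- (4) equivalence with the Beck-Fiala conjecture, families with exchange blocks
    ((∃ c : ℝ, 0 < c ∧ ∀ (m n t : ℕ) (S : Fin m → Finset (Fin n)), DegreeLE S t →
        HasColouring S (c * Real.sqrt t)) ↔
      ∃ c : ℝ, 0 < c ∧ ∀ (m n t s : ℕ) (S : Fin m → Finset (Fin n)) (𝓑 : Set (Finset (Fin n)))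
        (x : Fin n → ℝ), DegreeLE S t → ExchangeBlocks 𝓑 s → x ∈ Hull 𝓑 →
        HasRounding S 𝓑 x (c * (s * Real.sqrt (s * t)))) ∧
    -- (5) equivalence with the Beck-Fiala conjecture, matroids
    ((∃ c : ℝ, 0 < c ∧ ∀ (m n t : ℕ) (S : Fin m → Finset (Fin n)), DegreeLE S t →
        HasColouring S (c * Real.sqrt t)) ↔
      ∃ c : ℝ, 0 < c ∧ ∀ (m n t : ℕ) (S : Fin m → Finset (Fin n)) (M : Matroid (Fin n))
        (x : Fin n → ℝ), DegreeLE S t → StronglyBaseOrderable M →
        (x ∈ Hull (bases M) → HasRounding S (bases M) x (c * Real.sqrt t)) ∧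
        (x ∈ Hull (indeps M) → HasRounding S (indeps M) x (c * Real.sqrt t))) :=
  ⟨part1, part2, part3, part4, part5⟩

end Pool.Agent.Results.MP_e8ee11_co.MatroidBases
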